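import Pool.Agent.Helper5_OPEN.Stmt
import Pool.Agent.Helper5_OPEN.Sides
import Pool.Agent.Helper97_OPEN.Ins

/-!
Module EXT: merging the flat vertices of two sequences.
-/

namespace Pool.Agent.H5O.H72

open MeasureTheory Complex Filter Topology Pool.Agent.H16Iso Pool.Agent.H1Gen
open Pool.Agent.H5O.H97

/-- the boundary of the triangle -/
def On (z : ℂ) : Prop :=
  (z.im = 0 ∧ 0 ≤ z.re ∧ z.re ≤ 1) ∨ (z.re = 1 ∧ 0 ≤ z.im ∧ z.im ≤ Real.sqrt 3) ∨
    (z.im = Real.sqrt 3 * z.re ∧ 0 < z.re ∧ z.re ≤ 1)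

/-- position on the boundary -/
noncomputable def psi (z : ℂ) : ℝ :=
  if z.im = 0 then z.re else if z.re = 1 then 1 + z.im / Real.sqrt 3 else 3 - z.re

/-- direction of the side -/
noncomputable def dre (z : ℂ) : ℂ :=
  if z.im = 0 then 1 else if z.re = 1 then I else ⟨1, Real.sqrt 3⟩

theorem psi_A {z : ℂ} (h : z.im = 0) : psi z = z.re := by unfold psi; rw [if_pos h]

theorem psi_B {z : ℂ} (h : z.re = 1) : psi z = 1 + z.im / Real.sqrt 3 := by
  unfold psi
  by_cases h0 : z.im = 0
  · rw [if_pos h0, h0, h]; simp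
  · rw [if_neg h0, if_pos h]

theorem psi_C {z : ℂ} (h : z.im = Real.sqrt 3 * z.re) (h0 : 0 < z.re) : psi z = 3 - z.re := by
  have h3 := s3pos
  have h1 : z.im ≠ 0 := by rw [h]; positivity
  unfold psi
  rw [if_neg h1]
  split_ifs with h2
  · rw [h, h2]
    field_simp
    norm_num
  · rfl

section sides

variable {n : ℕ} {p : Fin (n + 3) → ℂ} {c₁ c₂ : Fin (n + 3)}

theorem tri (c₁ c₂ k : Fin (n + 3)) : k ≤ c₁ ∨ (c₁ ≤ k ∧ k ≤ c₂) ∨ c₂ ≤ k := by
  rcases le_total k c₁ with a | a
  · exact Or.inl a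
  · rcases le_total k c₂ with b | b
    · exact Or.inr (Or.inl ⟨a, b⟩)
    · exact Or.inr (Or.inr b)

theorem bA (h : Sides p c₁ c₂) : ∀ k, k ≤ c₁ → 0 ≤ (p k).re ∧ (p k).re ≤ 1 := by
  intro k hk
  constructor
  · rcases (Fin.zero_le k).lt_or_eq with h' | h'
    · have := h.Am 0 k h' hk
      rw [h.zero] at this; simpa using this.le
    · rw [← h', h.zero]; simp
  · rcases hk.lt_or_eq with h' | h'
    · have := h.Am k c₁ h' le_rfl
      rw [h.one] at this; simpa using this.le
    · rw [h', h.one]; simp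

theorem bB (h : Sides p c₁ c₂) : ∀ k, c₁ ≤ k → k ≤ c₂ → 0 ≤ (p k).im ∧ (p k).im ≤ Real.sqrt 3 := by
  intro k hk1 hk2
  constructor
  · rcases hk1.lt_or_eq with h' | h'
    · have := h.Bm c₁ k le_rfl h' hk2
      rw [h.one] at this; simpa using this.le
    · rw [← h', h.one]; simp
  · rcases hk2.lt_or_eq with h' | h'
    · have := h.Bm k c₂ hk1 h' le_rfl
      rw [h.two] at this; simpa using this.le
    · rw [h', h.two]

theorem bC (h : Sides p c₁ c₂) : ∀ k, c₂ ≤ k → (p k).re ≤ 1 := by
  intro k hk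
  rcases hk.lt_or_eq with h' | h'
  · have := h.Cm c₂ k le_rfl h'
    rw [h.two] at this; simpa using this.le
  · rw [← h', h.two]

theorem sides_on (h : Sides p c₁ c₂) (k : Fin (n + 3)) : On (p k) := by
  rcases tri c₁ c₂ k with a | ⟨a, b⟩ | a
  · exact Or.inl ⟨h.A k a, bA h k a⟩
  · exact Or.inr (Or.inl ⟨h.B k a b, bB h k a b⟩)
  · exact Or.inr (Or.inr ⟨h.C k a, h.C0 k a, bC h k a⟩)

theorem psi_mono (h : Sides p c₁ c₂) : StrictMono fun k => psi (p k) := by
  have h3 := s3pos
  intro i j hij
  show psi (p i) < psi (p j)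
  rcases tri c₁ c₂ j with hj | ⟨hj1, hj2⟩ | hj
  · rw [psi_A (h.A j hj), psi_A (h.A i (hij.le.trans hj))]
    exact h.Am i j hij hj
  · rw [psi_B (h.B j hj1 hj2)]
    rcases tri c₁ c₂ i with hi | ⟨hi1, hi2⟩ | hi
    · rw [psi_A (h.A i hi)]
      have b1 := bA h i hi
      have b2 := bB h j hj1 hj2
      rcases hi.lt_or_eq with hi' | hi'
      · have := h.Am i c₁ hi' le_rfl
        rw [h.one] at this
        have h5 : 0 ≤ (p j).im / Real.sqrt 3 := div_nonneg b2.1 h3.le
        simp at this
        linarith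
      · have := h.Bm c₁ j le_rfl (hi' ▸ hij) hj2
        rw [h.one] at this
        have h5 : 0 < (p j).im / Real.sqrt 3 := div_pos (by simpa using this) h3
        linarith [b1.2]
    · rw [psi_B (h.B i hi1 hi2)]
      have := h.Bm i j hi1 hij hj2
      have h5 : (p i).im / Real.sqrt 3 < (p j).im / Real.sqrt 3 :=
        div_lt_div_of_pos_right this h3
      linarith
    · exact absurd (hi.trans_lt hij) (not_lt.2 hj2)
  · rw [psi_C (h.C j hj) (h.C0 j hj)]
    have b2 := bC h j hj
    rcases tri c₁ c₂ i with hi | ⟨hi1, hi2⟩ | hi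
    · rw [psi_A (h.A i hi)]
      have b1 := bA h i hi
      linarith
    · rw [psi_B (h.B i hi1 hi2)]
      have b1 := bB h i hi1 hi2
      rcases hi2.lt_or_eq with hi' | hi'
      · have := h.Bm i c₂ hi1 hi' le_rfl
        rw [h.two] at this
        have h5 : (p i).im / Real.sqrt 3 < 1 := by
          rw [div_lt_one h3]; exact this
        linarith
      · have := h.Cm c₂ j le_rfl (hi' ▸ hij)
        rw [h.two] at this
        have h5 : (p i).im / Real.sqrt 3 ≤ 1 := by
          rw [div_le_one h3]; exact b1.2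
        simp at this
        linarith
    · rw [psi_C (h.C i hi) (h.C0 i hi)]
      have := h.Cm i j hi hij
      linarith

theorem psi_inj {z w : ℂ} (hz : On z) (hw : On w) (h : psi z = psi w) : z = w := by
  have h3 := s3pos
  rcases hz with ⟨z1, z2, z3⟩ | ⟨z1, z2, z3⟩ | ⟨z1, z2, z3⟩ <;>
    rcases hw with ⟨w1, w2, w3⟩ | ⟨w1, w2, w3⟩ | ⟨w1, w2, w3⟩
  · rw [psi_A z1, psi_A w1] at h
    exact Complex.ext h (by rw [z1, w1])
  · rw [psi_A z1, psi_B w1] at h
    have h5 : 0 ≤ w.im / Real.sqrt 3 := div_nonneg w2 h3.le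
    have h6 : w.im / Real.sqrt 3 = 0 := by linarith
    rw [div_eq_zero_iff] at h6
    have h7 : w.im = 0 := by
      rcases h6 with h6 | h6
      · exact h6
      · exact absurd h6 h3.ne'
    exact Complex.ext (by rw [w1]; rw [h7] at h; simpa using h) (by rw [z1, h7])
  · rw [psi_A z1, psi_C w1 w2] at h
    linarith
  · rw [psi_B z1, psi_A w1] at h
    have h5 : 0 ≤ z.im / Real.sqrt 3 := div_nonneg z2 h3.le
    have h6 : z.im / Real.sqrt 3 = 0 := by linarith
    rw [div_eq_zero_iff] at h6
    have h7 : z.im = 0 := by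
      rcases h6 with h6 | h6
      · exact h6
      · exact absurd h6 h3.ne'
    exact Complex.ext (by rw [z1]; rw [h7] at h; simpa using h) (by rw [w1, h7])
  · rw [psi_B z1, psi_B w1] at h
    have h5 : z.im / Real.sqrt 3 = w.im / Real.sqrt 3 := by linarith
    exact Complex.ext (by rw [z1, w1]) ((div_left_inj' h3.ne').1 h5)
  · rw [psi_B z1, psi_C w1 w2] at h
    have h5 : z.im / Real.sqrt 3 ≤ 1 := by rw [div_le_one h3]; exact z3
    have h6 : w.re = 1 := by linarith
    have h7 : z.im / Real.sqrt 3 = 1 := by linarith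
    rw [div_eq_one_iff_eq h3.ne'] at h7
    exact Complex.ext (by rw [z1, h6]) (by rw [w1, h6, h7, mul_one])
  · rw [psi_C z1 z2, psi_A w1] at h
    linarith
  · rw [psi_C z1 z2, psi_B w1] at h
    have h5 : w.im / Real.sqrt 3 ≤ 1 := by rw [div_le_one h3]; exact w3
    have h6 : z.re = 1 := by linarith
    have h7 : w.im / Real.sqrt 3 = 1 := by linarith
    rw [div_eq_one_iff_eq h3.ne'] at h7
    exact Complex.ext (by rw [w1, h6]) (by rw [z1, h6, h7, mul_one])
  · rw [psi_C z1 z2, psi_C w1 w2] at h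
    have h5 : z.re = w.re := by linarith
    exact Complex.ext h5 (by rw [z1, w1, h5])

end sides

theorem uniq_card {n m : ℕ} {p : Fin (n + 3) → ℂ} {p' : Fin (m + 3) → ℂ} (hp : Flat p)
    (hp' : Flat p') (h : Set.range p = Set.range p') : n = m := by
  have h1 : Nat.card (Set.range p) = n + 3 := by
    rw [Nat.card_range_of_injective hp.2.1, Nat.card_fin]
  have h2 : Nat.card (Set.range p') = m + 3 := by
    rw [Nat.card_range_of_injective hp'.2.1, Nat.card_fin]
  rw [h, h2] at h1
  omega

theorem uniq {n : ℕ} {p p' : Fin (n + 3) → ℂ} (hp : Flat p) (hp' : Flat p')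
    (h : Set.range p = Set.range p') : p = p' := by
  obtain ⟨c₁, c₂, hs⟩ := hp.sides
  obtain ⟨c₁', c₂', hs'⟩ := hp'.sides
  have e : (fun k => psi (p k)) = fun k => psi (p' k) := by
    rw [← (psi_mono hs).range_inj (psi_mono hs')]
    have e1 : Set.range (fun k => psi (p k)) = psi '' Set.range p := Set.range_comp psi p
    have e2 : Set.range (fun k => psi (p' k)) = psi '' Set.range p' := Set.range_comp psi p'
    rw [e1, e2, h]
  funext k
  exact psi_inj (sides_on hs k) (sides_on hs' k) (congrFun e k)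

/-- discrete intermediate value theorem -/
theorem find {n : ℕ} {g : Fin (n + 3) → ℝ} {a b : Fin (n + 3)} {x : ℝ} (ha : g a < x)
    (hb : x < g b) (hab : a ≤ b) (hne : ∀ k, g k ≠ x ∨ k < a ∨ b < k) :
    ∃ j, a ≤ j ∧ j < b ∧ g j < x ∧ x < g (j + 1) := by
  classical
  set S : Finset (Fin (n + 3)) := Finset.univ.filter fun k => a ≤ k ∧ k ≤ b ∧ g k < x with hS
  have haS : a ∈ S := by simp [hS, ha, hab]
  obtain ⟨j, hj, hmax⟩ := S.exists_max_image id ⟨a, haS⟩
  have hj' : a ≤ j ∧ j ≤ b ∧ g j < x := by simpa [hS] using hj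
  have hjb : j < b := by
    rcases hj'.2.1.lt_or_eq with h | h
    · exact h
    · exfalso
      rw [h] at hj'
      linarith [hj'.2.2]
  have hjl : j < Fin.last (n + 2) := hjb.trans_le (Fin.le_last b)
  have hval : ((j + 1 : Fin (n + 3)) : ℕ) = j + 1 := Fin.val_add_one_of_lt hjl
  have hlt : j < j + 1 := by rw [Fin.lt_def, hval]; omega
  have hle : j + 1 ≤ b := by rw [Fin.le_def, hval]; rw [Fin.lt_def] at hjb; omega
  refine ⟨j, hj'.1, hjb, hj'.2.2, ?_⟩
  by_contra hcon
  push Not at hcon
  have h1 : g (j + 1) < x := by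
    rcases hcon.lt_or_eq with h | h
    · exact h
    · rcases hne (j + 1) with h2 | h2 | h2
      · exact absurd h h2
      · exact absurd (hj'.1.trans_lt hlt) (not_lt.2 h2.le)
      · exact absurd h2 (not_lt.2 hle)
  have h2 : j + 1 ∈ S := by
    simp only [hS, Finset.mem_filter, Finset.mem_univ, true_and]
    exact ⟨hj'.1.trans hlt.le, hle, h1⟩
  have h3 := hmax (j + 1) h2
  exact absurd hlt (not_lt.2 h3)

theorem dre_A {z : ℂ} (h : z.im = 0) : dre z = 1 := by unfold dre; rw [if_pos h]
theorem dre_B {z : ℂ} (h : z.re = 1) (h0 : z.im ≠ 0) : dre z = I := by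
  unfold dre; rw [if_neg h0, if_pos h]
theorem dre_C {z : ℂ} (h : z.re ≠ 1) (h0 : z.im ≠ 0) : dre z = ⟨1, Real.sqrt 3⟩ := by
  unfold dre; rw [if_neg h0, if_neg h]

/-- a boundary point which is not a vertex lies inside a side -/
theorem seg_find {n : ℕ} {p : Fin (n + 3) → ℂ} {c₁ c₂ : Fin (n + 3)} (h : Sides p c₁ c₂) {z : ℂ}
    (hz : On z) (hzp : z ∉ Set.range p) :
    ∃ (j : Fin (n + 3)) (t r : ℝ), 0 < t ∧ t < 1 ∧ z = (1 - t) • p j + t • p (j + 1) ∧ r ≠ 0 ∧
      p (j + 1) - p j = r • dre z := by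
  have h3 := s3pos
  have hne : ∀ k, p k ≠ z := fun k hk => hzp ⟨k, hk⟩
  have fin : ∀ (j : Fin (n + 3)) (x y s : ℝ) (d c : ℂ), dre z = d → d ≠ 0 → z = c + s • d →
      p j = c + x • d → p (j + 1) = c + y • d → (x < s ∧ s < y ∨ y < s ∧ s < x) →
      ∃ (j : Fin (n + 3)) (t r : ℝ), 0 < t ∧ t < 1 ∧ z = (1 - t) • p j + t • p (j + 1) ∧ r ≠ 0 ∧
      p (j + 1) - p j = r • dre z := by
    intro j x y s d c hd hd0 hz1 hj hj1 hor
    refine ⟨j, (s - x) / (y - x), y - x, ?_, ?_, ?_, ?_, ?_⟩
    · rcases hor with ⟨h1, h2⟩ | ⟨h1, h2⟩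
      · exact div_pos (by linarith) (by linarith)
      · exact div_pos_of_neg_of_neg (by linarith) (by linarith)
    · rcases hor with ⟨h1, h2⟩ | ⟨h1, h2⟩
      · rw [div_lt_one (by linarith)]; linarith
      · rw [div_lt_one_of_neg (by linarith)]; linarith
    · have hyx : y - x ≠ 0 := by
        rcases hor with ⟨h1, h2⟩ | ⟨h1, h2⟩
        · exact ne_of_gt (by linarith)
        · exact ne_of_lt (by linarith)
      rw [hz1, hj, hj1]
      have e : s = x + (s - x) / (y - x) * (y - x) := by field_simp; ring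
      conv_lhs => rw [e]
      module
    · rcases hor with ⟨h1, h2⟩ | ⟨h1, h2⟩
      · exact ne_of_gt (by linarith)
      · exact ne_of_lt (by linarith)
    · rw [hj, hj1, hd]
      module
  rcases hz with ⟨z1, z2, z3⟩ | ⟨z1, z2, z3⟩ | ⟨z1, z2, z3⟩
  · -- side of length one
    have a1 : (p 0).re < z.re := by
      rw [h.zero]
      refine lt_of_le_of_ne (by simpa using z2) fun hc => hne 0 ?_
      rw [h.zero]
      exact Complex.ext hc (by rw [z1]; simp)
    have a2 : z.re < (p c₁).re := by
      rw [h.one]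
      refine lt_of_le_of_ne (by simpa using z3) fun hc => hne c₁ ?_
      rw [h.one]
      exact Complex.ext hc.symm (by rw [z1]; simp)
    obtain ⟨j, -, hj, g1, g2⟩ := find (g := fun k => (p k).re) a1 a2 (Fin.zero_le _) (by
      intro k
      by_cases hk : c₁ < k
      · exact Or.inr (Or.inr hk)
      · left
        intro hc
        exact hne k (Complex.ext hc (by rw [z1, h.A k (not_lt.1 hk)])))
    have hval : ((j + 1 : Fin (n + 3)) : ℕ) = j + 1 :=
      Fin.val_add_one_of_lt (hj.trans_le (Fin.le_last _))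
    have hle : j + 1 ≤ c₁ := by rw [Fin.le_def, hval]; rw [Fin.lt_def] at hj; omega
    refine fin j (p j).re (p (j + 1)).re z.re 1 0 (dre_A z1) one_ne_zero ?_ ?_ ?_
      (Or.inl ⟨g1, g2⟩)
    · apply Complex.ext <;> simp [z1]
    · apply Complex.ext <;> simp [h.A j hj.le]
    · apply Complex.ext <;> simp [h.A _ hle]
  · have z2' : z.im ≠ 0 := by
      intro hc
      exact hne c₁ (by rw [h.one]; exact Complex.ext (by rw [z1]; simp) (by rw [hc]; simp))
    have a1 : (p c₁).im < z.im := by
      rw [h.one]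
      exact lt_of_le_of_ne (by simpa using z2) (by simpa using z2'.symm)
    have a2 : z.im < (p c₂).im := by
      rw [h.two]
      refine lt_of_le_of_ne z3 fun hc => hne c₂ ?_
      rw [h.two]
      exact Complex.ext z1.symm hc.symm
    obtain ⟨j, hj0, hj, g1, g2⟩ := find (g := fun k => (p k).im) a1 a2 h.lt.le (by
      intro k
      by_cases hk : c₂ < k
      · exact Or.inr (Or.inr hk)
      · by_cases hk' : k < c₁
        · exact Or.inr (Or.inl hk')
        · left
          intro hc
          exact hne k (Complex.ext (by rw [z1, h.B k (not_lt.1 hk') (not_lt.1 hk)]) hc))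
    have hval : ((j + 1 : Fin (n + 3)) : ℕ) = j + 1 :=
      Fin.val_add_one_of_lt (hj.trans_le (Fin.le_last _))
    have hle : j + 1 ≤ c₂ := by rw [Fin.le_def, hval]; rw [Fin.lt_def] at hj; omega
    have hge : c₁ ≤ j + 1 := by rw [Fin.le_def, hval]; rw [Fin.le_def] at hj0; omega
    refine fin j (p j).im (p (j + 1)).im z.im I 1 (dre_B z1 z2') I_ne_zero ?_ ?_ ?_
      (Or.inl ⟨g1, g2⟩)
    · apply Complex.ext <;> simp [z1]
    · apply Complex.ext <;> simp [h.B j hj0 hj.le]
    · apply Complex.ext <;> simp [h.B _ hge hle]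
  · have z0 : z.im ≠ 0 := by rw [z1]; positivity
    have z4 : z.re ≠ 1 := by
      intro hc
      exact hne c₂ (by rw [h.two]; exact Complex.ext hc.symm (by rw [z1, hc, mul_one]))
    have hd : (⟨1, Real.sqrt 3⟩ : ℂ) ≠ 0 := fun hc => by
      have := congrArg Complex.re hc
      simp at this
    have rep : ∀ w : ℂ, w.im = Real.sqrt 3 * w.re → w = 0 + w.re • (⟨1, Real.sqrt 3⟩ : ℂ) := by
      intro w hw
      apply Complex.ext
      · simp
      · simp [hw]; ring
    by_cases hl : z.re < (p (Fin.last _)).re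
    · -- beyond the last vertex
      refine fin (Fin.last _) (p (Fin.last _)).re 0 z.re _ 0 (dre_C z4 z0) hd (rep z z1)
        (rep _ (h.C _ (Fin.le_last _))) ?_ (Or.inr ⟨z2, hl⟩)
      rw [Fin.last_add_one, h.zero]
      simp
    · have hl2 : (p (Fin.last _)).re < z.re := by
        refine lt_of_le_of_ne (not_lt.1 hl) fun hc => hne (Fin.last _) ?_
        exact Complex.ext hc (by rw [z1, h.C _ (Fin.le_last _), hc])
      have a1 : -(p c₂).re < -z.re := by
        rw [h.two]
        have : z.re < 1 := lt_of_le_of_ne z3 z4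
        simpa using this
      obtain ⟨j, hj0, hj, g1, g2⟩ := find (g := fun k => -(p k).re) a1 (b := Fin.last _)
        (neg_lt_neg hl2) (Fin.le_last _) (by
        intro k
        by_cases hk : k < c₂
        · exact Or.inr (Or.inl hk)
        · left
          intro hc
          have hc' : (p k).re = z.re := neg_inj.1 hc
          exact hne k (Complex.ext hc' (by rw [z1, h.C k (not_lt.1 hk), hc'])))
      have hval : ((j + 1 : Fin (n + 3)) : ℕ) = j + 1 :=
        Fin.val_add_one_of_lt (hj.trans_le (Fin.le_last _))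
      have hge : c₂ ≤ j + 1 := by rw [Fin.le_def, hval]; rw [Fin.le_def] at hj0; omega
      refine fin j (p j).re (p (j + 1)).re z.re _ 0 (dre_C z4 z0) hd (rep z z1)
        (rep _ (h.C _ hj0)) (rep _ (h.C _ hge)) (Or.inr ⟨by linarith, by linarith⟩)

/-- direction of the side after a vertex which is not a corner -/
theorem dir_find {n : ℕ} {p : Fin (n + 3) → ℂ} {c₁ c₂ : Fin (n + 3)} (h : Sides p c₁ c₂)
    {k : Fin (n + 3)} (h1 : k ≠ c₁) (h2 : k ≠ c₂) :
    ∃ r : ℝ, p (k + 1) - p k = r • dre (p k) := by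
  have h3 := s3pos
  rcases tri c₁ c₂ k with hk | ⟨hk1, hk2⟩ | hk
  · have hk' := lt_of_le_of_ne hk h1
    have hval : ((k + 1 : Fin (n + 3)) : ℕ) = k + 1 :=
      Fin.val_add_one_of_lt (hk'.trans_le (Fin.le_last _))
    have hle : k + 1 ≤ c₁ := by rw [Fin.le_def, hval]; rw [Fin.lt_def] at hk'; omega
    refine ⟨(p (k + 1)).re - (p k).re, ?_⟩
    rw [dre_A (h.A k hk)]
    apply Complex.ext <;> simp [h.A k hk, h.A _ hle]
  · have hk' := lt_of_le_of_ne hk2 h2
    have hval : ((k + 1 : Fin (n + 3)) : ℕ) = k + 1 :=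
      Fin.val_add_one_of_lt (hk'.trans_le (Fin.le_last _))
    have hle : k + 1 ≤ c₂ := by rw [Fin.le_def, hval]; rw [Fin.lt_def] at hk'; omega
    have hge : c₁ ≤ k + 1 := by rw [Fin.le_def, hval]; rw [Fin.le_def] at hk1; omega
    have him : (p k).im ≠ 0 := by
      have := h.Bm c₁ k le_rfl (lt_of_le_of_ne hk1 h1.symm) hk2
      rw [h.one] at this
      exact (by simpa using this : 0 < (p k).im).ne'
    refine ⟨(p (k + 1)).im - (p k).im, ?_⟩
    rw [dre_B (h.B k hk1 hk2) him]
    apply Complex.ext <;> simp [h.B k hk1 hk2, h.B _ hge hle]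
  · have hk' := lt_of_le_of_ne hk h2.symm
    have hC0 := h.C0 k hk
    have hCk := h.C k hk
    have hre : (p k).re ≠ 1 := by
      have := h.Cm c₂ k le_rfl hk'
      rw [h.two] at this
      exact (by simpa using this : (p k).re < 1).ne
    have him : (p k).im ≠ 0 := by rw [hCk]; positivity
    rw [dre_C hre him]
    by_cases hl : k = Fin.last _
    · refine ⟨-(p k).re, ?_⟩
      rw [hl, Fin.last_add_one, h.zero, ← hl]
      apply Complex.ext
      · simp
      · simp [hCk]; ring
    · have hval : ((k + 1 : Fin (n + 3)) : ℕ) = k + 1 :=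
        Fin.val_add_one_of_lt (lt_of_le_of_ne (Fin.le_last _) hl)
      have hge : c₂ ≤ k + 1 := by rw [Fin.le_def, hval]; rw [Fin.le_def] at hk; omega
      refine ⟨(p (k + 1)).re - (p k).re, ?_⟩
      apply Complex.ext
      · simp
      · simp [hCk, h.C _ hge]; ring

/-- tangential coordinate -/
noncomputable def tg (z y : ℂ) : ℝ := (y * (starRingEnd ℂ) (dre z)).re

theorem tg_continuous (z : ℂ) : Continuous (tg z) := by unfold tg; fun_prop

theorem tg_add (z x y : ℂ) : tg z (x + y) = tg z x + tg z y := by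
  unfold tg; rw [add_mul, add_re]

theorem tg_sub (z x y : ℂ) : tg z (x - y) = tg z x - tg z y := by
  unfold tg; rw [sub_mul, sub_re]

theorem tg_smul (z y : ℂ) (r : ℝ) : tg z (r • y) = r * tg z y := by
  unfold tg; rw [smul_mul_assoc, smul_re, smul_eq_mul]

theorem tg_dre_pos (z : ℂ) : 0 < tg z (dre z) := by
  unfold tg
  rw [Complex.mul_conj, Complex.ofReal_re]
  rw [Complex.normSq_pos]
  unfold dre
  split_ifs
  · exact one_ne_zero
  · exact I_ne_zero
  · intro hc
    have := congrArg Complex.re hc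
    simp at this

/-- insertion of a finite set of flat vertices -/
theorem insall {n : ℕ} {p₁ : Fin (n + 3) → ℂ} (h1 : Flat p₁) {v : ℕ → Fin (n + 3) → ℂ}
    (hv : Tendsto v atTop (𝓝 p₁)) (hw : ∀ i, WC (v i)) (τ : ℂ → ℕ → ℝ) (Z : Finset ℂ) :
    (∀ z ∈ Z, On z) → (∀ z ∈ Z, z ∉ Set.range p₁) →
    (∀ z ∈ Z, Tendsto (τ z) atTop (𝓝 (tg z z))) →
    ∃ (N : ℕ) (p : Fin (N + 3) → ℂ) (v' : ℕ → Fin (N + 3) → ℂ), Flat p ∧
      Set.range p = Set.range p₁ ∪ (Z : Set ℂ) ∧ Tendsto v' atTop (𝓝 p) ∧
      ∀ᶠ i in atTop, WC (v' i) ∧ poly (v' i) = poly (v i) ∧ area (v' i) = area (v i) ∧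
        per (v' i) = per (v i) ∧ (∀ k j, p k = p₁ j → v' i k = v i j) ∧
        (∀ k, p k ∉ Set.range p₁ → det (v' i k - v' i (k - 1)) (v' i (k + 1) - v' i k) = 0) ∧
        ∀ k, p k ∈ Z → tg (p k) (v' i k) = τ (p k) i := by
  classical
  induction Z using Finset.induction_on with
  | empty =>
    intro _ _ _
    refine ⟨n, p₁, v, h1, by simp, hv, Eventually.of_forall fun i => ⟨hw i, rfl, rfl, rfl, ?_, ?_,
      ?_⟩⟩
    · intro k j hkj
      rw [h1.2.1 hkj]
    · intro k hk
      exact absurd ⟨k, rfl⟩ hk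
    · intro k hk
      exact absurd hk (Finset.notMem_empty _)
  | insert z Z hzZ ih =>
    intro hOn hnr hτ
    obtain ⟨N, p, v', hp, hr, hv', hE⟩ := ih (fun w hw => hOn w (Finset.mem_insert_of_mem hw))
      (fun w hw => hnr w (Finset.mem_insert_of_mem hw))
      (fun w hw => hτ w (Finset.mem_insert_of_mem hw))
    have hzOn := hOn z (Finset.mem_insert_self _ _)
    have hznr := hnr z (Finset.mem_insert_self _ _)
    have hzτ := hτ z (Finset.mem_insert_self _ _)
    have hzp : z ∉ Set.range p := by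
      rw [hr]
      rintro (h | h)
      · exact hznr h
      · exact hzZ h
    obtain ⟨c₁, c₂, hs⟩ := hp.sides
    obtain ⟨j, t, r, ht0, ht1, hz, hr0, hdir⟩ := seg_find hs hzOn hzp
    -- the parameter of the new vertex
    have hT : ∀ k, Tendsto (fun i => tg z (v' i k)) atTop (𝓝 (tg z (p k))) := fun k =>
      ((tg_continuous z).tendsto _).comp ((continuous_apply k).tendsto _ |>.comp hv')
    have hdiff : tg z (p (j + 1)) - tg z (p j) = r * tg z (dre z) := by
      rw [← tg_sub, hdir, tg_smul]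
    have hdpos := tg_dre_pos z
    have hdne : tg z (p (j + 1)) - tg z (p j) ≠ 0 := by
      rw [hdiff]; exact mul_ne_zero hr0 hdpos.ne'
    set ti : ℕ → ℝ := fun i => (τ z i - tg z (v' i j)) / (tg z (v' i (j + 1)) - tg z (v' i j))
      with hti
    have htend : Tendsto ti atTop (𝓝 t) := by
      have h2 : Tendsto ti atTop (𝓝 ((tg z z - tg z (p j)) / (tg z (p (j + 1)) - tg z (p j)))) :=
        (hzτ.sub (hT j)).div ((hT (j + 1)).sub (hT j)) hdne
      have e : (tg z z - tg z (p j)) / (tg z (p (j + 1)) - tg z (p j)) = t := by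
        rw [div_eq_iff hdne]
        have : tg z z = (1 - t) * tg z (p j) + t * tg z (p (j + 1)) := by
          conv_lhs => rw [show tg z z = tg z ((1 - t) • p j + t • p (j + 1)) by rw [← hz]]
          rw [tg_add, tg_smul, tg_smul]
        rw [this]
        ring
      rwa [e] at h2
    have hev1 : ∀ᶠ i in atTop, 0 < ti i ∧ ti i < 1 :=
      (htend.eventually (lt_mem_nhds ht0)).and (htend.eventually (gt_mem_nhds ht1))
    have hev2 : ∀ᶠ i in atTop, tg z (v' i (j + 1)) - tg z (v' i j) ≠ 0 :=
      ((hT (j + 1)).sub (hT j)).eventually (isOpen_ne.mem_nhds hdne)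
    set zi : ℕ → ℂ := fun i => (1 - ti i) • v' i j + ti i • v' i (j + 1) with hzi
    have hvk : ∀ k, Tendsto (fun i => v' i k) atTop (𝓝 (p k)) := fun k =>
      (continuous_apply k).tendsto _ |>.comp hv'
    have hzit : Tendsto zi atTop (𝓝 z) := by
      rw [hz]
      exact ((tendsto_const_nhds.sub htend).smul (hvk j)).add (htend.smul (hvk (j + 1)))
    have hflat : Flat (ins p j z) := by
      refine ⟨?_, ins_inj hp.2.1 hzp, ?_, ?_⟩
      · rw [hz]; exact ins_wc hp.1 j ht0.le ht1.le
      · rw [hz, ins_poly j ht0.le ht1.le]; exact hp.2.2.1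
      · rw [ins_zero]; exact hp.2.2.2
    refine ⟨N + 1, ins p j z, fun i => ins (v' i) j (zi i), hflat, ?_, ins_tendsto hv' hzit j, ?_⟩
    · rw [ins_range, hr]
      ext w
      simp only [Set.mem_insert_iff, Set.mem_union, Finset.coe_insert, Finset.mem_coe]
      tauto
    · filter_upwards [hE, hev1, hev2] with i hi hti1 hti2
      obtain ⟨a1, a2, a3, a4, a5, a6, a7⟩ := hi
      refine ⟨ins_wc a1 j hti1.1.le hti1.2.le, ?_, ?_, ?_, ?_, ?_, ?_⟩
      · rw [hzi]
        show poly (ins (v' i) j ((1 - ti i) • v' i j + ti i • v' i (j + 1))) = _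
        rw [ins_poly j hti1.1.le hti1.2.le, a2]
      · show area (ins (v' i) j ((1 - ti i) • v' i j + ti i • v' i (j + 1))) = _
        rw [ins_area, a3]
      · show per (ins (v' i) j ((1 - ti i) • v' i j + ti i • v' i (j + 1))) = _
        rw [ins_per j hti1.1.le hti1.2.le, a4]
      · intro k l hkl
        revert hkl
        refine ins_cases (j := j) (fun k => ins p j z k = p₁ l → ins (v' i) j (zi i) k = v i l)
          ?_ ?_ k
        · intro h
          rw [ins_self] at h
          exact absurd ⟨l, h.symm⟩ hznr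
        · intro k' h
          rw [ins_old] at h ⊢
          exact a5 k' l h
      · intro k
        refine ins_cases (j := j) (fun k => ins p j z k ∉ Set.range p₁ →
          det (ins (v' i) j (zi i) k - ins (v' i) j (zi i) (k - 1))
            (ins (v' i) j (zi i) (k + 1) - ins (v' i) j (zi i) k) = 0) ?_ ?_ k
        · intro _
          rw [ins_self, ins_prev, ins_next, hzi]
          have e1 : (1 - ti i) • v' i j + ti i • v' i (j + 1) - v' i j
              = ti i • (v' i (j + 1) - v' i j) := by module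
          have e2 : v' i (j + 1) - ((1 - ti i) • v' i j + ti i • v' i (j + 1))
              = (1 - ti i) • (v' i (j + 1) - v' i j) := by module
          rw [e1, e2, det_smul_left, det_smul_right, det_self]
          ring
        · intro k' h
          rw [ins_old] at h ⊢
          have h6 := a6 k' h
          by_cases hk1 : k' = j
          · subst hk1
            have hne : k' ≠ k' + 1 := by
              intro hc
              have := congrArg Fin.val hc
              by_cases hl : k' = Fin.last _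
              · rw [hl, Fin.last_add_one] at this
                simp at this
              · rw [Fin.val_add_one_of_lt (lt_of_le_of_ne (Fin.le_last _) hl)] at this
                omega
            rw [ins_old_next', ins_old_prev hne]
            have e1 : (1 - ti i) • v' i k' + ti i • v' i (k' + 1) - v' i k'
              = ti i • (v' i (k' + 1) - v' i k') := by module
            show det _ ((1 - ti i) • v' i k' + ti i • v' i (k' + 1) - v' i k') = 0
            rw [e1, det_smul_right, h6, mul_zero]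
          · rw [ins_old_next hk1]
            by_cases hk2 : k' = j + 1
            · subst hk2
              rw [ins_old_prev']
              rw [add_sub_cancel_right] at h6
              have e2 : v' i (j + 1) - ((1 - ti i) • v' i j + ti i • v' i (j + 1))
                = (1 - ti i) • (v' i (j + 1) - v' i j) := by module
              show det (v' i (j + 1) - ((1 - ti i) • v' i j + ti i • v' i (j + 1))) _ = 0
              rw [e2, det_smul_left, h6, mul_zero]
            · rw [ins_old_prev hk2]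
              exact h6
      · intro k
        refine ins_cases (j := j) (fun k => ins p j z k ∈ insert z Z →
          tg (ins p j z k) (ins (v' i) j (zi i) k) = τ (ins p j z k) i) ?_ ?_ k
        · intro _
          rw [ins_self, ins_self, hzi]
          show tg z ((1 - ti i) • v' i j + ti i • v' i (j + 1)) = τ z i
          rw [tg_add, tg_smul, tg_smul]
          have e : ti i * (tg z (v' i (j + 1)) - tg z (v' i j)) = τ z i - tg z (v' i j) := by
            rw [hti]
            exact div_mul_cancel₀ _ hti2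
          linear_combination e
        · intro k' h
          rw [ins_old] at h ⊢
          rw [ins_old]
          refine a7 k' ?_
          rcases Finset.mem_insert.1 h with h | h
          · exact absurd ⟨k', h⟩ hzp
          · exact h

/-- the targets: tangential positions of the vertices of the other polygon -/
theorem exists_targets {n : ℕ} {p : Fin (n + 3) → ℂ} (hp : Function.Injective p)
    (v : ℕ → Fin (n + 3) → ℂ) : ∃ τ : ℂ → ℕ → ℝ, ∀ k i, τ (p k) i = tg (p k) (v i k) := by
  classical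
  refine ⟨fun z i => if h : ∃ k, p k = z then tg z (v i (Classical.choose h)) else 0, ?_⟩
  intro k i
  have h : ∃ l, p l = p k := ⟨k, rfl⟩
  simp only [dif_pos h]
  rw [hp (Classical.choose_spec h)]

theorem WC_of_CCW {n : ℕ} {v : Fin n → ℂ} (h : CCW v) : WC v := fun i j k hij hjk =>
  (h i j k hij hjk).le

theorem ext : ExtStatement := by
  classical
  intro n m p₁ p₂ h1 h2 v w hv hw cv cw
  obtain ⟨c₁, c₂, s1⟩ := h1.sides
  obtain ⟨d₁, d₂, s2⟩ := h2.sides
  obtain ⟨τ₂, hτ₂⟩ := exists_targets h2.2.1 w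
  obtain ⟨τ₁, hτ₁⟩ := exists_targets h1.2.1 v
  have f1 : (Set.range p₁).Finite := Set.finite_range p₁
  have f2 : (Set.range p₂).Finite := Set.finite_range p₂
  obtain ⟨N, p, v', hp, hr, hv', hE⟩ := insall h1 hv (fun i => WC_of_CCW (cv i)) τ₂
    (f2.toFinset \ f1.toFinset) (by
      intro z hz
      simp only [Finset.mem_sdiff, Set.Finite.mem_toFinset] at hz
      obtain ⟨k, rfl⟩ := hz.1
      exact sides_on s2 k) (by
      intro z hz
      simp only [Finset.mem_sdiff, Set.Finite.mem_toFinset] at hz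
      exact hz.2) (by
      intro z hz
      simp only [Finset.mem_sdiff, Set.Finite.mem_toFinset] at hz
      obtain ⟨k, rfl⟩ := hz.1
      have : τ₂ (p₂ k) = fun i => tg (p₂ k) (w i k) := funext fun i => hτ₂ k i
      rw [this]
      exact ((tg_continuous _).tendsto _).comp ((continuous_apply k).tendsto _ |>.comp hw))
  obtain ⟨N', p', w', hp', hr', hw', hE'⟩ := insall h2 hw (fun i => WC_of_CCW (cw i)) τ₁
    (f1.toFinset \ f2.toFinset) (by
      intro z hz
      simp only [Finset.mem_sdiff, Set.Finite.mem_toFinset] at hz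
      obtain ⟨k, rfl⟩ := hz.1
      exact sides_on s1 k) (by
      intro z hz
      simp only [Finset.mem_sdiff, Set.Finite.mem_toFinset] at hz
      exact hz.2) (by
      intro z hz
      simp only [Finset.mem_sdiff, Set.Finite.mem_toFinset] at hz
      obtain ⟨k, rfl⟩ := hz.1
      have : τ₁ (p₁ k) = fun i => tg (p₁ k) (v i k) := funext fun i => hτ₁ k i
      rw [this]
      exact ((tg_continuous _).tendsto _).comp ((continuous_apply k).tendsto _ |>.comp hv))
  have hru : Set.range p = Set.range p₁ ∪ Set.range p₂ := by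
    rw [hr]
    ext z
    simp only [Finset.coe_sdiff, Set.Finite.coe_toFinset, Set.mem_union, Set.mem_sdiff]
    tauto
  have hru' : Set.range p' = Set.range p₁ ∪ Set.range p₂ := by
    rw [hr']
    ext z
    simp only [Finset.coe_sdiff, Set.Finite.coe_toFinset, Set.mem_union, Set.mem_sdiff]
    tauto
  have hNN : N = N' := uniq_card hp hp' (by rw [hru, hru'])
  subst hNN
  have hpp : p = p' := uniq hp hp' (by rw [hru, hru'])
  subst hpp
  refine ⟨N, p, v', w', hp, hru, hv', hw', ?_⟩
  filter_upwards [hE, hE'] with i a b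
  obtain ⟨a1, a2, a3, a4, a5, a6, a7⟩ := a
  obtain ⟨b1, b2, b3, b4, b5, b6, b7⟩ := b
  refine ⟨a1, b1, a2, b2, a3, b3, a4, b4, a5, b5, a6, b6, ?_⟩
  intro k hk
  have hku : p k ∈ Set.range p₁ ∪ Set.range p₂ := hru ▸ ⟨k, rfl⟩
  obtain ⟨e₁, e₂, s⟩ := hp.sides
  have hk1 : k ≠ e₁ := by
    rintro rfl
    exact hk ⟨⟨c₁, by rw [s1.one, s.one]⟩, ⟨d₁, by rw [s2.one, s.one]⟩⟩
  have hk2 : k ≠ e₂ := by
    rintro rfl
    exact hk ⟨⟨c₂, by rw [s1.two, s.two]⟩, ⟨d₂, by rw [s2.two, s.two]⟩⟩
  obtain ⟨r, hr⟩ := dir_find s hk1 hk2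
  have key : tg (p k) (v' i k) = tg (p k) (w' i k) := by
    rcases hku with h | h
    · -- the vertex comes from `p₁`
      have hn : p k ∉ Set.range p₂ := fun h' => hk ⟨h, h'⟩
      obtain ⟨l, hl⟩ := h
      have hb := b7 k (by
        simp only [Finset.mem_sdiff, Set.Finite.mem_toFinset]
        exact ⟨⟨l, hl⟩, hn⟩)
      rw [hb, a5 k l hl.symm, ← hl, hτ₁]
    · have hn : p k ∉ Set.range p₁ := fun h' => hk ⟨h', h⟩
      obtain ⟨l, hl⟩ := h
      have ha := a7 k (by
        simp only [Finset.mem_sdiff, Set.Finite.mem_toFinset]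
        exact ⟨⟨l, hl⟩, hn⟩)
      rw [ha, b5 k l hl.symm, ← hl, hτ₂]
  have e : ((v' i k - w' i k) * (starRingEnd ℂ) (p (k + 1) - p k)).re
      = r * (tg (p k) (v' i k) - tg (p k) (w' i k)) := by
    rw [hr, ← tg_sub]
    unfold tg
    simp only [mul_re, conj_re, conj_im, smul_re, smul_im, smul_eq_mul]
    ring
  rw [e, key, sub_self, mul_zero]

end Pool.Agent.H5O.H72
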