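import Pool.Agent.Helper5_OPEN.Stmt
import Pool.Agent.Helper5_OPEN.DefsR
import Pool.Agent.Helper1_Gen.PolyGeom
import Pool.Agent.Helper9_TRI.Moments

/-!
Module HINV: area and perimeter are determined by the spectrum.
-/

namespace Pool.Agent.H5O.H72

open MeasureTheory Complex Filter Topology Pool.Agent.H16Iso Pool.Agent.H1Gen
open Pool.Agent.H62T (ip Poly Vol HeatStatement MomStatement RotStatement hs PP IsQuad)

theorem poly_ne {m : ℕ} {v : Fin (m + 3) → ℂ} (hv : CCW v) : (poly v).Nonempty := by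
  unfold poly
  rw [interior_convexHull_nonempty_iff_affineSpan_eq_top]
  rw [AffineSubspace.affineSpan_eq_top_iff_vectorSpan_eq_top_of_nonempty _ _ _
    (Set.range_nonempty v)]
  rw [eq_top_iff]
  intro z _
  have h2 : (2 : ℕ) % (m + 3) = 2 := Nat.mod_eq_of_lt (by omega)
  have hD := hv 0 1 2 (by simp) (by
    rw [Fin.lt_def]
    simp [h2])
  set a : ℂ := v 1 - v 0 with ha
  set b : ℂ := v 2 - v 0 with hb
  have hav : a ∈ vectorSpan ℝ (Set.range v) := vsub_mem_vectorSpan ℝ ⟨1, rfl⟩ ⟨0, rfl⟩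
  have hbv : b ∈ vectorSpan ℝ (Set.range v) := vsub_mem_vectorSpan ℝ ⟨2, rfl⟩ ⟨0, rfl⟩
  have hD' : det a b ≠ 0 := hD.ne'
  rw [cramer hD' z]
  exact add_mem (Submodule.smul_mem _ _ hav) (Submodule.smul_mem _ _ hbv)

theorem poly_bdd {n : ℕ} (v : Fin n → ℂ) : Bornology.IsBounded (poly v) :=
  ((Set.finite_range v).isCompact_convexHull (𝕜 := ℝ)).isBounded.subset interior_subset

section alg

variable {n : ℕ} {v : Fin (n + 3) → ℂ}

theorem sl_pos (hs : ∀ j, 0 < sn v j) (j : Fin (n + 3)) : 0 < sl v j := by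
  have h0 : 0 ≤ sl v j := norm_nonneg _
  rcases h0.lt_or_eq with h | h
  · exact h
  · exfalso
    have h1 : ev v j = 0 := by unfold ev; rw [← h]; simp
    have h2 := hs j
    unfold sn at h2
    rw [h1, det_zero_right] at h2
    exact lt_irrefl _ h2

theorem ev_mul (hs : ∀ j, 0 < sn v j) (j : Fin (n + 3)) :
    (sl v j : ℂ) * ev v j = v (j + 1) - v j := by
  have h : (sl v j : ℂ) ≠ 0 := by exact_mod_cast (sl_pos hs j).ne'
  unfold ev
  field_simp

theorem norm_ev (hs : ∀ j, 0 < sn v j) (j : Fin (n + 3)) : ‖ev v j‖ = 1 := by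
  have h := sl_pos hs j
  unfold ev
  rw [norm_div, Complex.norm_real, Real.norm_of_nonneg h.le]
  exact div_self h.ne'

theorem norm_uv (hs : ∀ j, 0 < sn v j) (j : Fin (n + 3)) : ‖uv v j‖ = 1 := by
  unfold uv
  rw [norm_mul, norm_ev hs, norm_neg, Complex.norm_I, one_mul]

theorem sq_ev (hs : ∀ j, 0 < sn v j) (j : Fin (n + 3)) :
    (ev v j).re ^ 2 + (ev v j).im ^ 2 = 1 := by
  have h := norm_ev hs j
  have h2 := Complex.normSq_eq_norm_sq (ev v j)
  rw [h, normSq_apply] at h2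
  linarith

/-- the tangential coordinate of the two ends of a side -/
theorem prev_coord (hs : ∀ j, 0 < sn v j) (j : Fin (n + 3)) :
    (Hv v (j - 1) - Hv v j * cs v j) / sn v j = -ip (ev v j) (v j) := by
  rw [div_eq_iff (hs j).ne']
  have h1 := sq_ev hs j
  have h2 := sq_ev hs (j - 1)
  have e1 := ev_mul hs (j - 1)
  rw [sub_add_cancel] at e1
  have e2 : v (j - 1) = v j - (sl v (j - 1) : ℂ) * ev v (j - 1) := by rw [e1]; ring
  have e3 : Hv v (j - 1) = ip (uv v (j - 1)) (v j) := by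
    unfold Hv uv ip
    rw [e2]
    simp only [mul_re, mul_im, neg_re, neg_im, I_re, I_im, sub_re, sub_im, ofReal_re, ofReal_im]
    ring
  rw [e3]
  unfold Hv uv sn cs ip det
  simp only [mul_re, mul_im, neg_re, neg_im, I_re, I_im]
  set a := (ev v j).re
  set b := (ev v j).im
  set c := (ev v (j - 1)).re
  set d := (ev v (j - 1)).im
  set x := (v j).re
  set y := (v j).im
  have : (d * x - c * y) * (a ^ 2 + b ^ 2) - (b * x - a * y) * (c * a + d * b)
      = -(a * x + b * y) * (c * b - d * a) := by ring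
  rw [h1] at this
  linear_combination this

theorem next_coord (hs : ∀ j, 0 < sn v j) (j : Fin (n + 3)) :
    (Hv v (j + 1) - Hv v j * cs v (j + 1)) / sn v (j + 1) = ip (ev v j) (v (j + 1)) := by
  rw [div_eq_iff (hs (j + 1)).ne']
  have h1 := sq_ev hs j
  have e1 := ev_mul hs j
  have e2 : v j = v (j + 1) - (sl v j : ℂ) * ev v j := by rw [e1]; ring
  have e3 : Hv v j = ip (uv v j) (v (j + 1)) := by
    unfold Hv uv ip
    rw [e2]
    simp only [mul_re, mul_im, neg_re, neg_im, I_re, I_im, sub_re, sub_im, ofReal_re, ofReal_im]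
    ring
  rw [e3]
  unfold Hv uv sn cs ip det
  simp only [mul_re, mul_im, neg_re, neg_im, I_re, I_im, add_sub_cancel_right]
  set a := (ev v j).re
  set b := (ev v j).im
  set c := (ev v (j + 1)).re
  set d := (ev v (j + 1)).im
  set x := (v (j + 1)).re
  set y := (v (j + 1)).im
  have : (d * x - c * y) * (a ^ 2 + b ^ 2) - (b * x - a * y) * (a * c + b * d)
      = (a * x + b * y) * (a * d - b * c) := by ring
  rw [h1] at this
  linear_combination this

/-- the linear part of the formal length -/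
noncomputable def An (v : Fin (n + 3) → ℂ) (h : Fin (n + 3) → ℝ) (j : Fin (n + 3)) : ℝ :=
  (h (j - 1) - h j * cs v j) / sn v j + (h (j + 1) - h j * cs v (j + 1)) / sn v (j + 1)

theorem ln_eq (h : Fin (n + 3) → ℝ) (j : Fin (n + 3)) : ln v h j = sl v j - An v h j := by
  unfold ln An
  ring

theorem An_H (hs : ∀ j, 0 < sn v j) (j : Fin (n + 3)) : An v (Hv v) j = sl v j := by
  unfold An
  rw [prev_coord hs, next_coord hs]
  have h1 := sq_ev hs j
  have e1 := ev_mul hs j
  have e2 : v (j + 1) = v j + (sl v j : ℂ) * ev v j := by rw [e1]; ring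
  rw [e2]
  unfold ip
  simp only [mul_re, mul_im, add_re, add_im, ofReal_re, ofReal_im]
  linear_combination (sl v j) * h1

theorem sum_shift (f : Fin (n + 3) → ℝ) : ∑ j, f (j + 1) = ∑ j, f j :=
  Fintype.sum_equiv (Equiv.addRight 1) _ _ fun _ => rfl

theorem sum_shift' (f : Fin (n + 3) → ℝ) : ∑ j, f (j - 1) = ∑ j, f j :=
  Fintype.sum_equiv (Equiv.subRight 1) _ _ fun _ => rfl

/-- symmetry of `An` -/
theorem An_symm (g h : Fin (n + 3) → ℝ) : ∑ j, g j * An v h j = ∑ j, h j * An v g j := by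
  have h1 : ∑ j, g j * (h (j - 1) / sn v j) = ∑ j, h j * (g (j + 1) / sn v (j + 1)) := by
    rw [← sum_shift fun j => g j * (h (j - 1) / sn v j)]
    refine Finset.sum_congr rfl fun j _ => ?_
    rw [add_sub_cancel_right]
    ring
  have h2 : ∑ j, h j * (g (j - 1) / sn v j) = ∑ j, g j * (h (j + 1) / sn v (j + 1)) := by
    rw [← sum_shift fun j => h j * (g (j - 1) / sn v j)]
    refine Finset.sum_congr rfl fun j _ => ?_
    rw [add_sub_cancel_right]
    ring
  have e : ∀ a b : Fin (n + 3) → ℝ, ∑ j, a j * An v b j =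
      ∑ j, a j * (b (j - 1) / sn v j) + ∑ j, a j * (b (j + 1) / sn v (j + 1))
        - ∑ j, a j * b j * (cs v j / sn v j + cs v (j + 1) / sn v (j + 1)) := by
    intro a b
    rw [← Finset.sum_add_distrib, ← Finset.sum_sub_distrib]
    refine Finset.sum_congr rfl fun j _ => ?_
    unfold An
    ring
  rw [e, e, h1, h2]
  have h3 : ∑ j, g j * h j * (cs v j / sn v j + cs v (j + 1) / sn v (j + 1)) =
      ∑ j, h j * g j * (cs v j / sn v j + cs v (j + 1) / sn v (j + 1)) :=
    Finset.sum_congr rfl fun j _ => by ring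
  rw [h3]
  ring

theorem Wv_eq (hs : ∀ j, 0 < sn v j) (h : Fin (n + 3) → ℝ) :
    Wv v h = (∑ j, Hv v j * sl v j) / 2 - ∑ j, sl v j * h j + (∑ j, h j * An v h j) / 2 := by
  have h1 := An_symm (v := v) (Hv v) h
  simp only [An_H hs] at h1
  unfold Wv
  have e : ∑ j, (Hv v j - h j) * ln v h j = ∑ j, Hv v j * sl v j - ∑ j, h j * sl v j
      - ∑ j, Hv v j * An v h j + ∑ j, h j * An v h j := by
    rw [← Finset.sum_sub_distrib, ← Finset.sum_sub_distrib, ← Finset.sum_add_distrib]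
    refine Finset.sum_congr rfl fun j _ => ?_
    rw [ln_eq]
    ring
  rw [e, h1]
  have e2 : ∑ j, sl v j * h j = ∑ j, h j * sl v j :=
    Finset.sum_congr rfl fun j _ => mul_comm _ _
  rw [e2]
  ring

theorem area_eq (hs : ∀ j, 0 < sn v j) : area v = (∑ j, Hv v j * sl v j) / 2 := by
  unfold area
  congr 1
  refine Finset.sum_congr rfl fun j _ => ?_
  have e1 := ev_mul hs j
  have e2 : v (j + 1) = v j + (sl v j : ℂ) * ev v j := by rw [e1]; ring
  rw [e2]
  unfold Hv uv ip det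
  simp only [mul_re, mul_im, neg_re, neg_im, I_re, I_im, add_re, add_im, ofReal_re, ofReal_im]
  ring

theorem An_smul (s : ℝ) (h : Fin (n + 3) → ℝ) (j : Fin (n + 3)) :
    An v (fun i => s * h i) j = s * An v h j := by
  unfold An
  ring

theorem abs_cs (hs : ∀ j, 0 < sn v j) (j : Fin (n + 3)) : |cs v j| ≤ 1 := by
  have h1 := sq_ev hs j
  have h2 := sq_ev hs (j - 1)
  unfold cs ip
  rw [abs_le]
  constructor
  · nlinarith [sq_nonneg ((ev v (j - 1)).re + (ev v j).re),
      sq_nonneg ((ev v (j - 1)).im + (ev v j).im)]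
  · nlinarith [sq_nonneg ((ev v (j - 1)).re - (ev v j).re),
      sq_nonneg ((ev v (j - 1)).im - (ev v j).im)]

theorem exists_small (hs : ∀ j, 0 < sn v j) : ∃ δ : ℝ, 0 < δ ∧
    ∀ h : Fin (n + 3) → ℝ, (∀ i, 0 ≤ h i) → (∀ i, h i ≤ δ) → ∀ j, 0 ≤ ln v h j := by
  set K : Fin (n + 3) → ℝ := fun j => 2 / sn v j + 2 / sn v (j + 1) with hK
  have hKpos : ∀ j, 0 < K j := fun j =>
    add_pos (div_pos two_pos (hs j)) (div_pos two_pos (hs (j + 1)))
  set S : ℝ := ∑ j, K j / sl v j with hS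
  have hterm : ∀ j, 0 < K j / sl v j := fun j => div_pos (hKpos j) (sl_pos hs j)
  have hle : ∀ j, K j / sl v j ≤ S := fun j =>
    Finset.single_le_sum (f := fun j => K j / sl v j) (fun i _ => (hterm i).le)
      (Finset.mem_univ j)
  have hSpos : 0 < S := (hterm 0).trans_le (hle 0)
  refine ⟨S⁻¹, inv_pos.2 hSpos, ?_⟩
  intro h h0 hδ j
  have aux : ∀ a b c s : ℝ, 0 < s → |c| ≤ 1 → 0 ≤ a → a ≤ S⁻¹ → 0 ≤ b → b ≤ S⁻¹ →
      (a - b * c) / s ≤ S⁻¹ * (2 / s) := by
    intro a b c s hs' hc ha0 ha hb0 hb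
    rw [← mul_div_assoc]
    apply div_le_div_of_nonneg_right _ hs'.le
    have h1 := abs_le.1 hc
    nlinarith
  have e1 := aux (h (j - 1)) (h j) (cs v j) (sn v j) (hs j) (abs_cs hs j) (h0 _) (hδ _) (h0 _)
    (hδ _)
  have e2 := aux (h (j + 1)) (h j) (cs v (j + 1)) (sn v (j + 1)) (hs _) (abs_cs hs _) (h0 _)
    (hδ _) (h0 _) (hδ _)
  have e3 : S⁻¹ * K j ≤ sl v j := by
    have h1 := hle j
    rw [div_le_iff₀ (sl_pos hs j)] at h1
    rw [inv_mul_le_iff₀ hSpos]
    exact h1
  have e4 : S⁻¹ * K j = S⁻¹ * (2 / sn v j) + S⁻¹ * (2 / sn v (j + 1)) := by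
    rw [hK]; ring
  unfold ln
  linarith

theorem isQuad_Wv (hs : ∀ j, 0 < sn v j) : IsQuad (Wv v) := by
  refine ⟨(∑ j, Hv v j * sl v j) / 2, fun j => -sl v j, fun i k =>
    ((if k = i - 1 then (sn v i)⁻¹ else 0) + (if k = i + 1 then (sn v (i + 1))⁻¹ else 0)
      - (if k = i then cs v i / sn v i + cs v (i + 1) / sn v (i + 1) else 0)) / 2, ?_⟩
  intro h
  rw [Wv_eq hs h]
  have e1 : ∑ j, -sl v j * h j = -∑ j, sl v j * h j := by
    rw [← Finset.sum_neg_distrib]
    exact Finset.sum_congr rfl fun j _ => by ring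
  have e2 : ∀ i, ∑ k, ((if k = i - 1 then (sn v i)⁻¹ else 0)
      + (if k = i + 1 then (sn v (i + 1))⁻¹ else 0)
      - (if k = i then cs v i / sn v i + cs v (i + 1) / sn v (i + 1) else 0)) / 2 * h i * h k
      = h i * An v h i / 2 := by
    intro i
    have e3 : ∀ k, ((if k = i - 1 then (sn v i)⁻¹ else 0)
      + (if k = i + 1 then (sn v (i + 1))⁻¹ else 0)
      - (if k = i then cs v i / sn v i + cs v (i + 1) / sn v (i + 1) else 0)) / 2 * h i * h k
      = (if k = i - 1 then (sn v i)⁻¹ / 2 * h i * h k else 0)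
        + (if k = i + 1 then (sn v (i + 1))⁻¹ / 2 * h i * h k else 0)
        - (if k = i then (cs v i / sn v i + cs v (i + 1) / sn v (i + 1)) / 2 * h i * h k
          else 0) := by
      intro k
      split_ifs <;> ring
    simp only [e3]
    rw [Finset.sum_sub_distrib, Finset.sum_add_distrib, Finset.sum_ite_eq', Finset.sum_ite_eq',
      Finset.sum_ite_eq']
    simp only [Finset.mem_univ, if_true]
    unfold An
    ring
  simp only [e2]
  rw [e1, ← Finset.sum_div]
  ring

end alg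

/-- expansion of the mean area for a polygon given by its vertices -/
theorem main_expansion (hR : RvwStatement) (hM : MomStatement) {e0 : ℝ}
    (hrot : ∀ u : ℂ, ‖u‖ = 1 → ∫ ω, hs ω u ∂PP = e0) {n : ℕ} {v : Fin (n + 3) → ℂ} (hv : CCW v) :
    ∃ q C : ℝ, ∀ s : ℝ, 0 < s → s ≤ 1 →
      |∫ ω, Vol (uv v) (Hv v) (fun i => s * hs ω (uv v i)) ∂PP
        - (area v - e0 * per v * s + q * s ^ 2)| ≤ C * s ^ 3 := by
  obtain ⟨hsn, hP, hVol⟩ := hR n v hv
  obtain ⟨δ, hδ, hsm⟩ := exists_small hsn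
  have hb : Bornology.IsBounded (Poly (uv v) (Hv v)) := by rw [← hP]; exact poly_bdd v
  have hne : (Poly (uv v) (Hv v)).Nonempty := by rw [← hP]; exact poly_ne hv
  obtain ⟨-, hintW, -, -, -, C, -, hC⟩ := Pool.Agent.H62T.H9.expansion hM hb hne (isQuad_Wv hsn)
    hδ (fun h h0 hδ' => hVol h (hsm h h0 hδ'))
  set L : Pool.Agent.H62T.Sp → ℝ := fun ω => ∑ j, sl v j * hs ω (uv v j) with hL
  set Q : Pool.Agent.H62T.Sp → ℝ := fun ω =>
    (∑ j, hs ω (uv v j) * An v (fun i => hs ω (uv v i)) j) / 2 with hQ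
  have hF : ∀ s ω, Wv v (fun i => s * hs ω (uv v i)) = area v - s * L ω + s ^ 2 * Q ω := by
    intro s ω
    rw [Wv_eq hsn, ← area_eq hsn, hL, hQ]
    simp only [An_smul]
    have e1 : ∑ j, sl v j * (s * hs ω (uv v j)) = s * ∑ j, sl v j * hs ω (uv v j) := by
      rw [Finset.mul_sum]
      exact Finset.sum_congr rfl fun j _ => by ring
    have e2 : ∑ j, s * hs ω (uv v j) * (s * An v (fun i => hs ω (uv v i)) j) =
        s ^ 2 * ∑ j, hs ω (uv v j) * An v (fun i => hs ω (uv v i)) j := by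
      rw [Finset.mul_sum]
      exact Finset.sum_congr rfl fun j _ => by ring
    rw [e1, e2]
    ring
  have ihs : ∀ u, Integrable (fun ω => hs ω u) PP := fun u => by
    have := hM.2.2.2 u 1
    simpa using this
  have iL : Integrable L PP := integrable_finsetSum _ fun j _ => (ihs _).const_mul _
  have iQ : Integrable Q PP := by
    have h1 := ((hintW 1).sub (integrable_const (area v))).add iL
    refine h1.congr (Eventually.of_forall fun ω => ?_)
    simp only [Pi.add_apply, Pi.sub_apply]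
    rw [hF 1 ω]
    ring
  have hEL : ∫ ω, L ω ∂PP = e0 * per v := by
    rw [hL, integral_finsetSum _ fun j _ => (ihs _).const_mul _]
    unfold per
    rw [Finset.mul_sum]
    refine Finset.sum_congr rfl fun j _ => ?_
    rw [integral_const_mul, hrot _ (norm_uv hsn j)]
    ring
  refine ⟨∫ ω, Q ω ∂PP, C, fun s h0 h1 => ?_⟩
  have h2 := hC s h0 h1
  have h3 : ∫ ω, Wv v (fun i => s * hs ω (uv v i)) ∂PP =
      area v - e0 * per v * s + (∫ ω, Q ω ∂PP) * s ^ 2 := by
    simp only [hF]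
    have i1 : Integrable (fun ω => area v - s * L ω) PP :=
      (integrable_const _).sub (iL.const_mul s)
    rw [integral_add i1 (iQ.const_mul _), integral_sub (integrable_const _) (iL.const_mul s),
      integral_const_mul, integral_const_mul, hEL]
    simp only [integral_const, probReal_univ, smul_eq_mul, one_mul]
    ring
  rwa [h3] at h2

theorem hinv (hR : RvwStatement) (hH : HeatStatement) (hM : MomStatement)
    (hRot : RotStatement) : HinvStatement := by
  obtain ⟨e0, he0, hrot⟩ := hRot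
  intro n m v w hv hw hiso
  obtain ⟨q, C, h1⟩ := main_expansion hR hM hrot hv
  obtain ⟨q', C', h2⟩ := main_expansion hR hM hrot hw
  have key : ∀ s : ℝ, 0 < s → ∫ ω, Vol (uv v) (Hv v) (fun i => s * hs ω (uv v i)) ∂PP =
      ∫ ω, Vol (uv w) (Hv w) (fun i => s * hs ω (uv w i)) ∂PP := by
    intro s hs0
    have gen : ∀ {k : ℕ} {z : Fin (k + 3) → ℂ}, CCW z →
        4 * Real.pi * s ^ 2 * ∑' i, Real.exp (-(dirEig (poly z) i * s ^ 2)) =
          ∫ ω, Vol (uv z) (Hv z) (fun i => s * hs ω (uv z i)) ∂PP := by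
      intro k z hz
      obtain ⟨hsn, hP, -⟩ := hR k z hz
      have hb : Bornology.IsBounded (Poly (uv z) (Hv z)) := by rw [← hP]; exact poly_bdd z
      have hne : (Poly (uv z) (Hv z)).Nonempty := by rw [← hP]; exact poly_ne hz
      have := hH (k + 3) (uv z) (Hv z) (norm_uv hsn) hb hne (s ^ 2) (by positivity)
      rw [Real.sqrt_sq hs0.le, ← hP] at this
      exact this
    rw [← gen hv, ← gen hw]
    congr 1
    refine tsum_congr fun i => ?_
    rw [hiso i]
  have h3 : ∀ s : ℝ, 0 < s → s ≤ 1 → |(area v - area w) + (-(e0 * (per v - per w))) * s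
      + (q - q') * s ^ 2| ≤ (C + C') * s ^ 3 := by
    intro s h0 h1'
    have a1 := h1 s h0 h1'
    have a2 := h2 s h0 h1'
    rw [key s h0] at a1
    set X := ∫ ω, Vol (uv w) (Hv w) (fun i => s * hs ω (uv w i)) ∂PP
    have e : (area v - area w) + (-(e0 * (per v - per w))) * s + (q - q') * s ^ 2 =
        (X - (area w - e0 * per w * s + q' * s ^ 2))
          - (X - (area v - e0 * per v * s + q * s ^ 2)) := by ring
    rw [e]
    calc _ ≤ _ + _ := abs_sub _ _
      _ ≤ C' * s ^ 3 + C * s ^ 3 := add_le_add a2 a1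
      _ = _ := by ring
  obtain ⟨r1, r2, -⟩ := Pool.Agent.H62T.H9.poly_zero h3
  refine ⟨by linarith, ?_⟩
  rw [neg_eq_zero, mul_eq_zero] at r2
  rcases r2 with h | h
  · exact absurd h he0.ne'
  · linarith

end Pool.Agent.H5O.H72
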